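import Pool.Agent.J6H67.DB.All2

/-!
# MP_768c9c_nt: completely multiplicative functions whose partial sums vanish for almost all `x`

For every `0.615 ≤ β < 1` there is a real completely multiplicative `f` with `|f n| ≤ n^(-β)` whose partial sums `S(N)` tend to `0`
at the rate `N^(-(β - 0.615 + c))`, satisfy `S(N) = O(N^(-(β - 3/16 + c)))` for all but `O(X^(1-c))` of the `N ≤ X`, and, if `β < 13/16`,
`S(N) = 0` for all but `O(X^(1-c'))` of the `N ≤ X`.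
-/

set_option autoImplicit false

namespace Pool.Agent.Results.MP_768c9c_nt.AlmostAllVanishing

open Finset
open scoped Classical

theorem result : ∃ c : ℝ, 0 < c ∧ ∀ β : ℝ, 0.615 ≤ β → β < 1 → ∃ (f : ℕ → ℝ) (C : ℝ), f 1 = 1 ∧
    (∀ m n : ℕ, 1 ≤ m → 1 ≤ n → f (m * n) = f m * f n) ∧
    (∀ n : ℕ, 1 ≤ n → |f n| ≤ (n : ℝ) ^ (-β)) ∧
    (∀ N : ℕ, 1 ≤ N → |∑ n ∈ Icc 1 N, f n| ≤ C * (N : ℝ) ^ (-(β - 0.615 + c))) ∧
    (∀ X : ℕ, 1 ≤ X → (((Icc 1 X).filter (fun N : ℕ =>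
      C * (N : ℝ) ^ (-(β - 3 / 16 + c)) < |∑ n ∈ Icc 1 N, f n|)).card : ℝ) ≤ C * (X : ℝ) ^ (1 - c)) ∧
    (β < 13 / 16 → ∃ c' : ℝ, 0 < c' ∧ ∀ X : ℕ, 1 ≤ X →
      (((Icc 1 X).filter (fun N : ℕ => ∑ n ∈ Icc 1 N, f n ≠ 0)).card : ℝ) ≤ C * (X : ℝ) ^ (1 - c')) :=
  J6H67.DB.all_main3

end Pool.Agent.Results.MP_768c9c_nt.AlmostAllVanishing
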