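import Mathlib
import Pool.Agent.J6H30.CMO.Sharp

/-!
# Kahane-Saias: partial sums of CMO functions with `|f(p)| ≤ 1/p`

The conjecture `S_f(x) = Ω(x^(-1/2))` fails in general (starting file `S17468`). Here it is proved for all CMO
functions `f` with `|f(p)| ≤ 1/p` (equivalently `f(n) = O(1/n)`), with the explicit constant `1/|ζ(1/2)|`, and for
larger classes.

Let `f` be a CMO function. For each prime `p` let `z_p` be a complex number with `|z_p| ≤ 1/p`; if `f(p)` is real and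
`≥ 1/p` one may also take `z_p = f(p)`. Suppose that `∑ √p |f(p) - z_p| < ∞`. Then

  `limsup √x |S_f(x)| ≥ limsup (1 / log X) ∫_1^X √x |S_f(x)| dx / x ≥ 1 / (|ζ(1/2)| ∏_p |1 - √p f(p)| / |1 - √p z_p|)`,

where the factors with `z_p = f(p)` are `1`. (If the product is `0`, both limsups are infinite.)

For example `z_p = f(p)` for all `p` if `|f(p)| ≤ 1/p` for all `p`; and if `f` is real, with `f(p) ≥ -1/p` for all `p`
outside a finite set `B`, one can take `z_p = 0` for `p ∈ B`, `z_p = f(p)` otherwise.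

Proof: let `g` be the completely multiplicative function with `g(p) = z_p`, `G(s) = ∑ g(n) n^(-s)`. The Dirichlet series
`E(s) = ζ(1+s)^2 G(s) G̃(s)` has nonnegative coefficients, and it is analytic for `Re s > -1/2` if the logarithmic means
are bounded, as `F(0) = 0` cancels the pole of `ζ`. By Landau's theorem its Euler product may be used for real
`σ > -1/2`, and gives `|ζ(1+σ) G(σ)| ≥ ζ(2+2σ)`; let `σ → -1/2`.
-/

set_option autoImplicit false

namespace Pool.Agent.Results.MP_768c9c_nt.BoundedByReciprocals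

open Filter Topology

/-- CMO functions: completely multiplicative on the positive integers, with `∑ f(n) = 0` -/
structure IsCMO (f : ℕ → ℂ) : Prop where
  map_one : f 1 = 1
  map_mul : ∀ m n : ℕ, 0 < m → 0 < n → f (m * n) = f m * f n
  sum_zero : Tendsto (fun N : ℕ => ∑ n ∈ Finset.Icc 1 N, f n) atTop (𝓝 0)

/-- `S_f(x) = ∑_{1 ≤ n ≤ x} f(n)` -/
noncomputable def S (f : ℕ → ℂ) (x : ℝ) : ℂ := ∑ n ∈ Finset.Icc 1 ⌊x⌋₊, f n

/-- the logarithmic mean `(1 / log X) ∫_1^X √x |S_f(x)| dx / x` -/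
noncomputable def logMean (f : ℕ → ℂ) (X : ℝ) : ℝ := (∫ x in (1 : ℝ)..X, ‖S f x‖ / √x) / Real.log X

open Classical in
/-- `1` if `z_p = f(p)`, otherwise `|1 - √p f(p)| / |1 - √p z_p|` -/
noncomputable def factor (f z : ℕ → ℂ) (p : ℕ) : ℝ :=
  if z p = f p then 1 else ‖1 - (√(p : ℝ) : ℂ) * f p‖ / ‖1 - (√(p : ℝ) : ℂ) * z p‖

theorem result (f : ℕ → ℂ) (hf : IsCMO f) (z : ℕ → ℂ)
    (hz : ∀ p : ℕ, p.Prime → ‖z p‖ ≤ 1 / p ∨ (z p = f p ∧ ∃ r : ℝ, 1 / p ≤ r ∧ f p = r))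
    (hs : Summable fun p : Nat.Primes => √((p : ℕ) : ℝ) * ‖f p - z p‖) (C : ℝ)
    (hC : (∀ᶠ x : ℝ in atTop, √x * ‖S f x‖ ≤ C) ∨ (∀ᶠ X : ℝ in atTop, logMean f X ≤ C)) :
    1 ≤ C * ‖riemannZeta (1 / 2)‖ * ∏' p : Nat.Primes, factor f z p := by
  have hcm : Pool.Agent.J6H30.CMO.CM f := ⟨hf.map_one, hf.map_mul⟩
  obtain ⟨b, hb⟩ : ∃ b : ℝ, Pool.Agent.J6H30.CMO.BP f b := by
    obtain ⟨b, hb⟩ := hf.sum_zero.norm.bddAbove_range
    exact ⟨b, fun n => hb ⟨n, rfl⟩⟩
  have hper : Pool.Agent.J6H30.CMO.Per f z := by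
    refine ⟨fun p hp => ?_, ?_⟩
    · rcases hz p hp with h | h
      · right; rwa [← one_div]
      · exact Or.inl h.1
    · refine hs.congr fun p => ?_
      rw [mul_comm, norm_sub_rev]
  have hg : ∀ p : ℕ, p.Prime → ‖z p‖ ≤ (p : ℝ)⁻¹ ∨ ∃ r : ℝ, (p : ℝ)⁻¹ ≤ r ∧ z p = r := by
    intro p hp
    rcases hz p hp with h | ⟨h, r, hr, hfr⟩
    · left; rwa [← one_div]
    · right; exact ⟨r, by rwa [← one_div], by rw [h, hfr]⟩
  have hfac : ∀ p : ℕ, factor f z p = Pool.Agent.J6H30.CMO.fac f z p := by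
    intro p
    unfold factor Pool.Agent.J6H30.CMO.fac
    split_ifs <;> rfl
  simp only [hfac]
  rcases hC with hC | hC
  · refine le_of_forall_pos_le_add fun ε hε => ?_
    set Q : ℝ := ‖riemannZeta (1 / 2)‖ * ∏' p : Nat.Primes, Pool.Agent.J6H30.CMO.fac f z p with hQ
    have hQ0 : 0 ≤ Q := by
      refine mul_nonneg (norm_nonneg _) ?_
      rw [(Pool.Agent.J6H30.CMO.gq'_prod hcm hper).tprod_eq]
      exact norm_nonneg _
    have hC' : C < C + ε / (Q + 1) := by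
      have : 0 < ε / (Q + 1) := by positivity
      linarith
    have h3 := Pool.Agent.J6H30.CMO.main_sharp hcm hb hper hg
      (Pool.Agent.J6H30.CMO.logHyp_of_pt hC' hC)
    rw [mul_assoc, ← hQ] at h3
    rw [mul_assoc, ← hQ]
    have h4 : ε / (Q + 1) * Q ≤ ε := by
      rw [div_mul_eq_mul_div, div_le_iff₀ (by linarith)]
      nlinarith
    nlinarith
  · exact Pool.Agent.J6H30.CMO.main_sharp hcm hb hper hg
      (Pool.Agent.J6H30.CMO.logHyp_of_mean hC)

end Pool.Agent.Results.MP_768c9c_nt.BoundedByReciprocals
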