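import Mathlib
import Pool.Agent.J6H30.CMO.Fin

/-!
# A power of `x` as lower bound for the partial sums of every CMO function

For every CMO function `f` there is `0 < θ < 1` with `limsup x^θ |S_f(x)| ≥ c`, `c > 0` an absolute constant. The
lower bound `S_f(x) = Ω(1 / (x (log log x)^2))`, and for multiplicative functions `Ω(1/x)`, was known.

One may take `θ = 1/2` if `|f(p)| ≤ 1/p` for all primes `p`, and otherwise `θ` with `|f(p)| = p^(-θ)` for any prime with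
`|f(p)| > 1/p`.
-/

set_option autoImplicit false

namespace Pool.Agent.Results.MP_768c9c_nt.PowerLowerBound

open Filter Topology

/-- CMO functions: completely multiplicative on the positive integers, with `∑ f(n) = 0` -/
structure IsCMO (f : ℕ → ℂ) : Prop where
  map_one : f 1 = 1
  map_mul : ∀ m n : ℕ, 0 < m → 0 < n → f (m * n) = f m * f n
  sum_zero : Tendsto (fun N : ℕ => ∑ n ∈ Finset.Icc 1 N, f n) atTop (𝓝 0)

/-- `S_f(x) = ∑_{1 ≤ n ≤ x} f(n)` -/
noncomputable def S (f : ℕ → ℂ) (x : ℝ) : ℂ := ∑ n ∈ Finset.Icc 1 ⌊x⌋₊, f n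

theorem result : ∃ c : ℝ, 0 < c ∧ ∀ f : ℕ → ℂ, IsCMO f →
    ∃ θ : ℝ, 0 < θ ∧ θ < 1 ∧
      ((θ = 1 / 2 ∧ ∀ p : ℕ, p.Prime → ‖f p‖ ≤ 1 / p) ∨ ∃ p : ℕ, p.Prime ∧ ‖f p‖ = (p : ℝ) ^ (-θ)) ∧
      ∃ᶠ x : ℝ in atTop, c ≤ x ^ θ * ‖S f x‖ := by
  refine ⟨min (1 / 4) (1 / (2 * ‖riemannZeta (1 / 2)‖ + 2)), by positivity, ?_⟩
  intro f hf
  have hcm : Pool.Agent.J6H30.CMO.CM f := ⟨hf.map_one, hf.map_mul⟩
  obtain ⟨b, hb⟩ : ∃ b : ℝ, Pool.Agent.J6H30.CMO.BP f b := by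
    obtain ⟨b, hb⟩ := hf.sum_zero.norm.bddAbove_range
    exact ⟨b, fun n => hb ⟨n, rfl⟩⟩
  by_cases h3 : ∀ p : ℕ, p.Prime → ‖f p‖ ≤ (p : ℝ)⁻¹
  · refine ⟨1 / 2, by norm_num, by norm_num, Or.inl ⟨rfl, fun p hp => by
      rw [one_div]; exact h3 p hp⟩, ?_⟩
    intro hcon
    set c : ℝ := 1 / (2 * ‖riemannZeta (1 / 2)‖ + 2) with hc
    have hc0 : 0 < c := by positivity
    have h4 : ∀ᶠ x : ℝ in atTop, √x * ‖Pool.Agent.J6H30.CMO.PS f x‖ ≤ c := by
      filter_upwards [hcon] with x hx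
      rw [← Real.sqrt_eq_rpow] at hx
      exact (le_of_lt (not_le.1 hx)).trans (min_le_right _ _)
    have h5 := Pool.Agent.J6H30.CMO.main_fin hcm hb (B := ∅) (by simp)
      (fun p hp _ => Or.inl (h3 p hp))
      (Pool.Agent.J6H30.CMO.logHyp_of_pt (show c < 2 * c by linarith) h4)
    rw [Finset.prod_empty, mul_one, hc] at h5
    have h6 : 0 ≤ ‖riemannZeta (1 / 2)‖ := norm_nonneg _
    have h7 : 2 * (1 / (2 * ‖riemannZeta (1 / 2)‖ + 2)) * ‖riemannZeta (1 / 2)‖ < 1 := by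
      rw [mul_one_div, div_mul_eq_mul_div, div_lt_one (by linarith)]
      linarith
    linarith
  · push Not at h3
    obtain ⟨p, hp, hfp⟩ := h3
    have hlim : Tendsto (fun k : ℕ => ‖f p‖ ^ k) atTop (𝓝 0) := by
      have h4 : Tendsto (fun N : ℕ => f (N + 1)) atTop (𝓝 0) := by
        have h5 := (hf.sum_zero.comp (tendsto_add_atTop_nat 1)).sub hf.sum_zero
        rw [sub_zero] at h5
        refine h5.congr fun N => ?_
        simp only [Function.comp]
        rw [Finset.sum_Icc_succ_top (by omega)]; ring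
      have h6 : Tendsto f atTop (𝓝 0) := (tendsto_add_atTop_iff_nat 1).1 h4
      have h7 := (h6.comp (tendsto_pow_atTop_atTop_of_one_lt hp.one_lt)).norm
      rw [norm_zero] at h7
      refine h7.congr fun k => ?_
      simp only [Function.comp, hcm.pow hp.pos, norm_pow]
    have hlt : ‖f p‖ < 1 := by
      by_contra hcon
      push Not at hcon
      have h9 : (1 : ℝ) ≤ 0 := ge_of_tendsto' hlim fun k => one_le_pow₀ hcon
      linarith
    obtain ⟨θ, h0, h1, h2, h4⟩ := Pool.Agent.J6H30.CMO.big_prime' hcm hp hfp hlt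
    refine ⟨θ, h0, h1, Or.inr ⟨p, hp, h2⟩, (h4 (1 / 4) (by norm_num)).mono fun x hx => ?_⟩
    exact (min_le_left _ _).trans hx

end Pool.Agent.Results.MP_768c9c_nt.PowerLowerBound
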