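import Pool.Agent.Q18.KZ.All
import Pool.Agent.J6H85.KS.Main

/-!
# Values at primes of completely multiplicative functions with rapidly decaying partial sums

There is `c₀ > 0` such that for every `0 < β < 1/2 + c₀`

* for every prime `p` the set of the values `f p` of the completely multiplicative `f` with
  `∑_{n ≤ N} f n = O(N^(-β))` is exactly the closed disc `|z| ≤ p^(-β)`;
* for every set `F` of primes with `∑_{p ∈ F} p^(-(1/2 + c₀ - β)) < ∞` (e.g. a finite set) and all `a p`, `p ∈ F`, with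
  `|a p| < p^(-β)` and `∑_{p ∈ F} |a p| p^β < ∞` there is a completely multiplicative `f`, real at the primes outside `F`,
  with `f p = a p` for `p ∈ F` and `∑_{n ≤ N} f n = O(N^(-β))`.

All these functions are CMO functions, and for `β > 1/2` they violate `∑_{n ≤ x} f n = Ω(x^(-1/2))`. The start of the
construction is the real CMO function of the library behind `Pool/Agent/S17468.lean`.
-/

set_option autoImplicit false

open Finset Filter Topology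

namespace Pool.Agent.Results.MP_768c9c_nt.PrescribedValues

theorem result :
    ∃ c₀ : ℝ, 0 < c₀ ∧ ∀ β : ℝ, 0 < β → β < 1 / 2 + c₀ →
      (∀ p : ℕ, p.Prime → ∀ z : ℂ, (‖z‖ ≤ (p : ℝ) ^ (-β) ↔
        ∃ f : ℕ → ℂ, f 1 = 1 ∧ (∀ m n : ℕ, 0 < m → 0 < n → f (m * n) = f m * f n) ∧
          Tendsto (fun N : ℕ => ∑ n ∈ Finset.range N, f (n + 1)) atTop (𝓝 0) ∧
          (∃ C : ℝ, ∀ N : ℕ, 1 ≤ N → ‖∑ n ∈ Finset.Icc 1 N, f n‖ ≤ C * (N : ℝ) ^ (-β)) ∧ f p = z)) ∧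
      (∀ F : Set ℕ, (∀ p ∈ F, p.Prime) → Summable (fun p : F => ((p : ℕ) : ℝ) ^ (-(1 / 2 + c₀ - β))) →
        ∀ a : ℕ → ℂ, (∀ p ∈ F, ‖a p‖ < (p : ℝ) ^ (-β)) →
        Summable (fun p : F => ‖a p‖ * ((p : ℕ) : ℝ) ^ β) →
        ∃ f : ℕ → ℂ, f 1 = 1 ∧ (∀ m n : ℕ, 0 < m → 0 < n → f (m * n) = f m * f n) ∧
          Tendsto (fun N : ℕ => ∑ n ∈ Finset.range N, f (n + 1)) atTop (𝓝 0) ∧
          (∃ C : ℝ, ∀ N : ℕ, 1 ≤ N → ‖∑ n ∈ Finset.Icc 1 N, f n‖ ≤ C * (N : ℝ) ^ (-β)) ∧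
          (∀ p ∈ F, f p = a p) ∧ ∀ p : ℕ, p.Prime → p ∉ F → (f p).im = 0) := by
  obtain ⟨f, c, C, hc, hC, hf1, hmul, hS⟩ := Pool.Agent.Q18.KZ.a_FIN
    (Pool.Agent.Q18.KZ.a_ENV Pool.Agent.Q278.KT.mainp_half Pool.Agent.Q278.KT.mainp_043 Pool.Agent.Q278.KT.mainp_1316)
  have h1 : (fun n : ℕ => ((f n : ℝ) : ℂ)) 1 = 1 := by simp [hf1]
  have h2 : ∀ m n : ℕ, 0 < m → 0 < n →
      (fun n : ℕ => ((f n : ℝ) : ℂ)) (m * n) = (fun n : ℕ => ((f n : ℝ) : ℂ)) m * (fun n : ℕ => ((f n : ℝ) : ℂ)) n := by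
    intro m n hm hn
    simp only
    rw [hmul m n hm hn]
    push_cast
    rfl
  have h3 : ∀ N : ℕ, 1 ≤ N → ‖∑ n ∈ Finset.Icc 1 N, (fun n : ℕ => ((f n : ℝ) : ℂ)) n‖ ≤ C * (N : ℝ) ^ (-(1 / 2 + c)) := by
    intro N hN
    simp only
    rw [← Complex.ofReal_sum, Complex.norm_real, Real.norm_eq_abs, show -(1 / 2 + c) = -(1 / 2 : ℝ) - c by ring]
    exact hS N hN
  have hγ : (0 : ℝ) < 1 / 2 + c := by linarith
  refine ⟨c, hc, fun β hβ hβc => ⟨fun p hp z => ⟨fun hz => ?_, ?_⟩, fun F hF hFs a ha has => ?_⟩⟩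
  · obtain ⟨g, hg1, hg2, ⟨C', hC'⟩, hgp⟩ := J6H85.KS.one_prime hγ h1 h2 h3 hβ hβc hp hz
    exact ⟨g, hg1, hg2, J6H85.KS.tendsto_zero hβ hC', ⟨C', hC'⟩, hgp⟩
  · rintro ⟨g, hg1, hg2, _, ⟨C', hC'⟩, rfl⟩
    exact J6H85.KS.prime_bound hg1 hg2 hβ.le hC' hp
  · obtain ⟨g, hg1, hg2, ⟨C', hC'⟩, hga, hg0⟩ := J6H85.KS.many_primes hγ h1 h2 h3 hβ hβc F hF hFs a ha has
    refine ⟨g, hg1, hg2, J6H85.KS.tendsto_zero hβ hC', ⟨C', hC'⟩, hga, fun p hp hpF => ?_⟩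
    rw [hg0 p hp hpF]
    exact Complex.ofReal_im _

end Pool.Agent.Results.MP_768c9c_nt.PrescribedValues
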